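import Pool.Agent.H681R3.DS2.Fin

set_option autoImplicit false

/-!
# Invariant forms on C_E(T): difference sets of sparse sequences

Let m be a sequence of positive integers with m(i+1) at least 100 (i+1)^gamma m(i), gamma > 0.
Every set E of integers that is contained in the difference set {m(i) - m(j)} near 0 in the Bohr
topology has the automatic continuity property, although the difference set itself is not a Sidon
set in any Bohr neighbourhood of 0.

Outline. The coefficients a(i,j) of f at m(i) - m(j) form a bounded bilinear form (Riesz
products and polarization). Random colouring of the indices by K colours (symmetrization,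
contraction principle, Khintchine) makes the form restricted to pairs of equal colours have norm
at most C K^(-1/2). Iterating, one gets colourings of level 0, 1, 2, ... such that the part of the
form not separated before level p has norm at most rho^p. Numbers a(l), one for each colour, are
chosen such that 40^p m(i) a(l) is near 1/2 modulo 1 if i has colour l at level p and near 0
otherwise (nested intervals). So the pairs separated at level p can be divided exactly by
1 - e(-40^p (m(i)-m(j)) a(l)), a Schur multiplier; the cost 40^p is compensated by rho^p. Pairs
that are never separated are absolutely summable and are handled by the starting result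
SidonNearZero, which also gives the localisation near 0.
-/

namespace Pool.Agent.Results.MP_eb9c50_an.DifferenceSets

open Pool.Agent.Results.MP_eb9c50_an.SidonNearZero

theorem result (γ : ℝ) (hγ : 0 < γ) (m : ℕ → ℤ) (h0 : 0 < m 0)
    (hm : ∀ i : ℕ, 100 * ((i : ℝ) + 1) ^ γ * (m i : ℝ) ≤ (m (i + 1) : ℝ)) :
    (∀ (E : Set ℤ) (S : Finset UnitAddCircle) (δ : ℝ), 0 < δ →
      (∀ k ∈ E, k ∈ BohrSet S δ → k ≠ 0 → ∃ i j, k = m i - m j) → AutomaticContinuity E) ∧
    (∀ (S : Finset UnitAddCircle) (δ : ℝ), 0 < δ →
      ¬ IsSidon ({k | ∃ i j, k = m i - m j} ∩ BohrSet S δ)) :=
  Pool.Agent.H681R3.DS2.main γ hγ m h0 hm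

end Pool.Agent.Results.MP_eb9c50_an.DifferenceSets
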