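import Pool.Agent.H681R3.TI.Extra

set_option autoImplicit false

/-!
# Discontinuous translation-invariant linear forms on C_E(T) for sets E rich in finite sums

If E contains, for every r, all nonempty subset sums of some r nonzero integers, then C_E(T)
carries a discontinuous translation-invariant linear form. This covers E = Z, E = N (the disc
algebra), every E containing {d, 2d, ..., Ld} for arbitrarily large L, and every IP set.

Outline. Put A(w) = rho/(1+rho-w), so |1-A| is at most 1 on the closed disc, A(1) = 1 and A(0) is
small. Let w be the mean of K characters e(m_j t) with m lacunary inside the finite sums; dropping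
the repeated indices in the powers of w changes A(w) by a small amount and leaves only frequencies
that are finite sums. The product over i of s such factors 1-A_i gives u = c - prod (1-A_i) with
|u| at most 3, mean zero, spectrum in E, and for any s points y_1, ..., y_s there is x with
Re u(x+y_i) at least 1/2 for all i. If E had the property, every mean zero function of C_E(T)
would be a finite sum of differences g - g_a, so its averages over the boxes
{x - r_1 a_1 - ... - r_m a_m : 0 <= r_i < R} would be O(1/R); by Baire and the compactness of T^m
this holds with uniform m and constant, which the functions u contradict.
-/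

namespace Pool.Agent.Results.MP_eb9c50_an.FiniteSums

open Pool.Agent.H681R3.TI

theorem result (E : Set ℤ)
    (hE : ∀ r : ℕ, ∃ n : Fin r → ℤ, (∀ i, n i ≠ 0) ∧
      ∀ A : Finset (Fin r), A.Nonempty → ∑ i ∈ A, n i ∈ E) :
    ¬ AutomaticContinuity E :=
  not_AC_FSZ E hE

end Pool.Agent.Results.MP_eb9c50_an.FiniteSums
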