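import Pool.Agent.H681R3.TI.Local

set_option autoImplicit false

/-!
# Automatic continuity for locally rich sets of frequencies

Call E locally rich if for every finite F in E whose elements have one sign and every r there are
nonzero integers k_1, ..., k_r with n + sum over A of k_i in E for all n in F and all subsets A
of {1, ..., r}. For such E every translation-invariant linear form on C_E(T) is continuous if and
only if some Bohr neighbourhood of 0 contains no nonzero element of E.

Every set open in a nondiscrete group topology of Z is locally rich, for instance the Bohr-open
sets and {n : the distance from n^2 a to the integers is larger than c}.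

Outline of the only-if part. By compactness of T^m a finite F in E meets every
{k : |k a_i| < delta for i <= m}. With k_1, ..., k_r rich for F put
u(t) = sum over g of e(n_g t) (q_g - q_(g+1)), q_g = L_1 ... L_g, where the factors
L = 1 - (1/M) sum of 2^-j/(2^-j + 1 - w), w a mean of characters e(k t), stay within 8/M of the
real segment [0,1], so that the sum of |q_g - q_(g+1)| is at most 2. Then u has spectrum in
E minus {0}, |u| is at most 2, and for all a_1, ..., a_m its average over some translate of the box
{r_1 a_1 + ... + r_m a_m : 0 <= r_i < R} is at least 1/2 in modulus. The Baire category argument
of FiniteSums finishes the proof. The if part is the starting result SidonNearZero.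
-/

namespace Pool.Agent.Results.MP_eb9c50_an.LocallyRichSets

open Pool.Agent.H681R3.TI

theorem result (E : Set ℤ) (hE : LocallyRich E) :
    AutomaticContinuity E ↔
      ∃ (S : Finset UnitAddCircle) (δ : ℝ), 0 < δ ∧ ∀ k ∈ E, k ∈ Bohr S δ → k = 0 :=
  locally_rich_iff E hE

end Pool.Agent.Results.MP_eb9c50_an.LocallyRichSets
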